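import Pool.Agent.Helper97.EP.Cnt

/-!
# EP, part MAJ: the major case
-/

set_option autoImplicit false

open Polynomial

namespace Pool.Agent.Helper20.EP.H97

theorem maj_main (hCELLC : S_CELLC) (hMEAN : S_MEAN) (hVAR : S_VAR) (hQPR : S_QPR)
    (hBIGP : S_BIGP) (hZERO : S_ZERO) (hCOMB : S_COMB) (hSCALE : S_SCALE) : S_MAJ := by
  classical
  intro f hf t ε hε
  -- parameters
  set e : ℝ := min 1 (ε / (5 + 3 * |t|)) with he
  have ht0 : 0 < 5 + 3 * |t| := by positivity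
  have he0 : 0 < e := lt_min one_pos (div_pos hε ht0)
  have he1 : e ≤ 1 := min_le_left _ _
  have heε : (5 + 3 * |t|) * e ≤ ε := by
    have h1 : e ≤ ε / (5 + 3 * |t|) := min_le_right _ _
    calc (5 + 3 * |t|) * e ≤ (5 + 3 * |t|) * (ε / (5 + 3 * |t|)) :=
          mul_le_mul_of_nonneg_left h1 ht0.le
      _ = ε := by field_simp
  obtain ⟨CB, NB, hCB, hB⟩ := hBIGP f hf
  obtain ⟨CZ, hZ⟩ := hZERO f hf
  obtain ⟨C0, NS, hC0, hS⟩ := hSCALE f hf
  set δ : ℝ := e / 8 with hδ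
  have hδ0 : 0 < δ := by positivity
  have hδ1 : δ ≤ 1 / 8 := by rw [hδ]; linarith
  set κ : ℝ := e / (8 * (CB + 1)) with hκ
  have hκ0 : 0 < κ := by positivity
  have hκC : (CB + 1) * κ = e / 8 := by rw [hκ]; field_simp
  have hκ1 : κ ≤ 1 / 8 := by
    have : κ ≤ (CB + 1) * κ := by nlinarith
    linarith
  obtain ⟨K1, N1, σ, hC⟩ := hCELLC f.natDegree t e he0
  obtain ⟨K2, M2, N2, hM⟩ := hMEAN f hf δ hδ0
  obtain ⟨M3, N3, hV⟩ := hVAR f hf δ hδ0
  obtain ⟨M4, N4, hQ⟩ := hQPR f hf δ hδ0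
  obtain ⟨N5, hN5⟩ := ll_large (max 1 (4 * (σ ^ 2 + 1)))
  obtain ⟨N6, hN6⟩ := exists_nat_ge (CZ / δ)
  obtain ⟨N7, hN7⟩ := exists_nat_ge N1
  set K : ℕ := max 2 (max K1 K2) with hK
  set M₁ : ℝ := max 1 (max (3 * C0 / δ) (max M2 (max M3 M4))) with hM₁
  set N₀ : ℕ := max NB (max NS (max N2 (max N3 (max N4 (max N5 (max N6 (max N7 1))))))) with hN₀
  refine ⟨K, κ, M₁, N₀, hκ0, ?_⟩
  intro N q F T M y hN hD hM1 hMN hMy hyN hG
  have hNB : NB ≤ N := le_trans (by rw [hN₀]; simp) hN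
  have hNS : NS ≤ N := le_trans (by rw [hN₀]; simp) hN
  have hN2 : N2 ≤ N := le_trans (by rw [hN₀]; simp) hN
  have hN3 : N3 ≤ N := le_trans (by rw [hN₀]; simp) hN
  have hN4 : N4 ≤ N := le_trans (by rw [hN₀]; simp) hN
  have hN5' : N5 ≤ N := le_trans (by rw [hN₀]; simp) hN
  have hN6' : N6 ≤ N := le_trans (by rw [hN₀]; simp) hN
  have hN7' : N7 ≤ N := le_trans (by rw [hN₀]; simp) hN
  have hN1 : 1 ≤ N := le_trans (by rw [hN₀]; simp) hN
  have hM_1 : 1 ≤ M := le_trans (le_max_left _ _) hM1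
  have hM_a : 3 * C0 / δ ≤ M := le_trans (by rw [hM₁]; simp) hM1
  have hM_2 : M2 ≤ M := le_trans (by rw [hM₁]; simp) hM1
  have hM_3 : M3 ≤ M := le_trans (by rw [hM₁]; simp) hM1
  have hM_4 : M4 ≤ M := le_trans (by rw [hM₁]; simp) hM1
  have hMpow : ∀ k : ℕ, k ≤ K → M ^ k ≤ N := fun k hk =>
    le_trans (pow_le_pow_right₀ hM_1 hk) hMN
  have hK2 : 2 ≤ K := le_max_left _ _
  have hKK1 : K1 ≤ K := by rw [hK]; simp
  have hKK2 : K2 ≤ K := by rw [hK]; simp
  have hMsq : M ^ 2 ≤ N := hMpow 2 hK2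
  have hN0 : (0 : ℝ) < N := by exact_mod_cast hN1
  have hy1 : 1 ≤ y := hM_1.trans hMy
  have hypow : y ^ K1 ≤ N := le_trans (pow_le_pow_right₀ hy1 hKK1) hyN
  set L : ℝ := ll N with hL
  have hL1 : 1 ≤ L := le_trans (le_max_left _ _) (hN5 N hN5')
  have hLσ : 4 * (σ ^ 2 + 1) ≤ L := le_trans (le_max_right _ _) (hN5 N hN5')
  have hsL : 1 ≤ Real.sqrt L := by rw [Real.one_le_sqrt]; exact hL1
  have hsLL : Real.sqrt L ≤ L := by
    have := Real.mul_self_sqrt (by linarith : 0 ≤ L)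
    nlinarith
  have hq1 : 1 ≤ q := hD.q_pos
  have hqM : (q : ℝ) ≤ M := by
    rw [hD.hM]
    have h1 := hD.T_nn
    have h2 : (0 : ℝ) ≤ q := by positivity
    nlinarith
  -- ll y
  have hlly : ll y ≤ L := by
    rw [hL]
    unfold ll
    have h1 : 0 < Real.log y := Real.log_pos (by linarith [hG.two])
    exact Real.log_le_log h1 (Real.log_le_log (by linarith) hG.le)
  have hdy : |ll y - L| ≤ κ * Real.sqrt L := by
    rw [abs_sub_comm, abs_of_nonneg (by linarith)]
    exact hG.dif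
  -- the good cells
  set G : Finset ℤ := ((Finset.Icc 1 N).image fun n => sn f q F n).filter fun s =>
    (N : ℝ) ≤ M ^ 3 * (cell f N q F s).card ∧ |mu F q y s - ll y| ≤ δ * Real.sqrt L ∧
      |va F q y s - mu F q y s| ≤ δ * L with hGdef
  have hGmem : ∀ n ∈ Finset.Icc 1 N, sn f q F n ∉ G →
      (¬ (N : ℝ) ≤ M ^ 3 * (cell f N q F (sn f q F n)).card) ∨
      (δ * Real.sqrt L < |mu F q y (sn f q F n) - ll y|) ∨
      (δ * L < |va F q y (sn f q F n) - mu F q y (sn f q F n)|) := by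
    intro n hn hnG
    rw [hGdef, Finset.mem_filter] at hnG
    by_contra hc
    push Not at hc
    exact hnG ⟨Finset.mem_image_of_mem _ hn, hc.1, hc.2.1, hc.2.2⟩
  have hvaG : ∀ s ∈ G, L / 2 ≤ va F q y s := by
    intro s hs
    rw [hGdef, Finset.mem_filter] at hs
    obtain ⟨-, -, h1, h2⟩ := hs
    rw [abs_le] at h1 h2 hdy
    have h3 : δ * Real.sqrt L ≤ δ * L := mul_le_mul_of_nonneg_left hsLL hδ0.le
    have h4 : κ * Real.sqrt L ≤ κ * L := mul_le_mul_of_nonneg_left hsLL hκ0.le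
    have h5 : δ * L ≤ 1 / 8 * L := mul_le_mul_of_nonneg_right hδ1 (by linarith)
    have h6 : κ * L ≤ 1 / 8 * L := mul_le_mul_of_nonneg_right hκ1 (by linarith)
    linarith [h1.1, h2.1, hdy.1]
  have hσG : ∀ s ∈ G, σ ≤ Real.sqrt (va F q y s) := by
    intro s hs
    have h1 := hvaG s hs
    apply Real.le_sqrt_of_sq_le
    nlinarith
  have hCG : ∀ s ∈ G, _ := fun s hs => hC f N q F M y s rfl hq1 hD.deg hqM
    (le_trans hN7 (by exact_mod_cast hN7')) (hMpow K1 hKK1) hy1 hypow hN1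
    (by rw [hGdef, Finset.mem_filter] at hs; exact hs.2.1) (hσG s hs)
  -- z
  set z : ℕ → ℝ := fun n => ((Zn f q y n : ℝ) - mu F q y (sn f q F n)) /
    Real.sqrt (va F q y (sn f q F n)) with hz
  have hcells : ∀ s : ℤ, (Finset.Icc 1 N).filter (fun n => sn f q F n = s) = cell f N q F s := by
    intro s; rfl
  have hzc : ∀ s : ℤ, ∀ n ∈ cell f N q F s, z n = ((Zn f q y n : ℝ) - mu F q y s) /
      Real.sqrt (va F q y s) := by
    intro s n hn
    unfold cell at hn
    rw [Finset.mem_filter] at hn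
    rw [hz]
    simp only [hn.2]
  have hcard0 : ∀ s ∈ G, (0 : ℝ) < (cell f N q F s).card := by
    intro s hs
    rw [hGdef, Finset.mem_filter] at hs
    by_contra hc
    push Not at hc
    have h1 : M ^ 3 * ((cell f N q F s).card : ℝ) ≤ 0 :=
      mul_nonpos_of_nonneg_of_nonpos (by positivity) hc
    linarith [hs.2.1]
  have hh1 : ∀ s ∈ G, ‖∑ n ∈ (Finset.Icc 1 N).filter (fun n => sn f q F n = s),
      Complex.exp (t * Complex.I * (z n : ℝ)) -
    (((Finset.Icc 1 N).filter (fun n => sn f q F n = s)).card : ℂ) *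
      Complex.exp (-(t : ℂ) ^ 2 / 2)‖ ≤
      e * (((Finset.Icc 1 N).filter (fun n => sn f q F n = s)).card : ℝ) := by
    intro s hs
    rw [hcells s]
    have h1 := (hCG s hs).1
    have h2 := hcard0 s hs
    have h3 : ((cell f N q F s).card : ℂ) ≠ 0 := by
      intro h4
      have h5 : (cell f N q F s).card = 0 := by exact_mod_cast h4
      rw [h5] at h2
      simp at h2
    have h4 : (∑ n ∈ cell f N q F s, Complex.exp (t * Complex.I * (z n : ℝ))) =
        ∑ n ∈ cell f N q F s, Complex.exp (t * Complex.I *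
          (((Zn f q y n : ℝ) - mu F q y s) / Real.sqrt (va F q y s) : ℝ)) := by
      apply Finset.sum_congr rfl
      intro n hn
      rw [hzc s n hn]
    rw [h4]
    have h5 : ∀ a b : ℂ, a - ((cell f N q F s).card : ℂ) * b =
        ((cell f N q F s).card : ℂ) * (a / ((cell f N q F s).card : ℂ) - b) := by
      intro a b
      field_simp
    rw [h5, norm_mul, mul_comm e]
    rw [show ‖((cell f N q F s).card : ℂ)‖ = ((cell f N q F s).card : ℝ) by simp]
    exact mul_le_mul_of_nonneg_left h1 h2.le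
  have hh2 : ∀ s ∈ G, ∑ n ∈ (Finset.Icc 1 N).filter (fun n => sn f q F n = s), z n ^ 2 ≤
      2 * (((Finset.Icc 1 N).filter (fun n => sn f q F n = s)).card : ℝ) := by
    intro s hs
    rw [hcells s]
    have h1 := (hCG s hs).2
    refine le_trans (le_of_eq ?_) h1
    apply Finset.sum_congr rfl
    intro n hn
    rw [hzc s n hn]
  -- the bad n
  have hb1 : cnt N (fun n => ¬ (N : ℝ) ≤ M ^ 3 * (cell f N q F (sn f q F n)).card) ≤ δ * N := by
    have h1 := cnt_small hC0 hM_1 (hS N q F T M hNS hD hMsq).2 (M ^ 3) (by positivity)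
    refine h1.trans ?_
    rw [div_le_iff₀ hδ0] at hM_a
    have h2 : 3 * C0 * M * (N / M ^ 3) = 3 * C0 * N / M ^ 2 := by field_simp
    rw [h2, div_le_iff₀ (by positivity)]
    have h3 : M ≤ M ^ 2 := by nlinarith
    have h4 : 3 * C0 ≤ M ^ 2 * δ := by nlinarith
    nlinarith
  have hb2 := hM N q F T M y hN2 hD hM_2 (hMpow K2 hKK2) hMy hG.le
  have hb3 := hV N q F T M y hN3 hD hM_3 hMsq
  have hb4 := hQ N q F T M hN4 hD hM_4 hMsq
  have hb5 : cnt N (fun n => ⌊f.eval (n : ℝ)⌋ = 0) ≤ δ * N := by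
    refine (hZ N).trans ?_
    have h1 : CZ / δ ≤ N := le_trans hN6 (by exact_mod_cast hN6')
    rw [div_le_iff₀ hδ0] at h1
    linarith
  have hbG : cnt N (fun n => sn f q F n ∉ G) ≤ 3 * δ * N := by
    refine le_trans (cnt_mono hGmem) ?_
    refine le_trans (cnt_or N _ _) ?_
    have := cnt_or N (fun n => δ * Real.sqrt L < |mu F q y (sn f q F n) - ll y|)
      (fun n => δ * L < |va F q y (sn f q F n) - mu F q y (sn f q F n)|)
    linarith
  have hh3 : cnt N (fun n => sn f q F n ∉ G) ≤ e * N := by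
    refine hbG.trans ?_
    rw [hδ]
    nlinarith
  have hh4 : cnt N (fun n => e * (1 + |z n|) < |xn f N n - z n|) ≤ e * N := by
    have h1 : ∀ n ∈ Finset.Icc 1 N, e * (1 + |z n|) < |xn f N n - z n| →
        (sn f q F n ∉ G) ∨ (⌊f.eval (n : ℝ)⌋ = 0) ∨
        (δ * Real.sqrt L <
          ((q.primeFactors.filter fun p : ℕ => (p : ℤ) ∣ ⌊f.eval (n : ℝ)⌋).card : ℝ)) := by
      intro n hn hlt
      by_contra hc
      push Not at hc
      obtain ⟨hc1, hc2, hc3⟩ := hc
      apply absurd hlt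
      push Not
      have hg := hc1
      rw [hGdef, Finset.mem_filter] at hg
      obtain ⟨-, -, hg1, hg2⟩ := hg
      have hvp : 0 < va F q y (sn f q F n) := by
        have := hvaG _ hc1
        linarith
      have hbp := hB N hNB n hn hc2 y hG.two
      have hzs := Zn_sub (f := f) hq1 y n
      have hE : |(omg ⌊f.eval (n : ℝ)⌋ : ℝ) - Zn f q y n| ≤
          CB * (Real.log N / Real.log y) + δ * Real.sqrt L := by
        have h2 := abs_add_le ((omg ⌊f.eval (n : ℝ)⌋ : ℝ) - Zn f 1 y n)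
          ((Zn f 1 y n : ℝ) - Zn f q y n)
        rw [show ((omg ⌊f.eval (n : ℝ)⌋ : ℝ) - Zn f 1 y n) + ((Zn f 1 y n : ℝ) - Zn f q y n) =
          (omg ⌊f.eval (n : ℝ)⌋ : ℝ) - Zn f q y n by ring] at h2
        linarith
      have hE' : CB * (Real.log N / Real.log y) + δ * Real.sqrt L ≤
          (CB * κ + δ) * Real.sqrt L := by
        have h2 := mul_le_mul_of_nonneg_left hG.quo hCB.le
        rw [← hL] at h2
        nlinarith
      have hmu : |mu F q y (sn f q F n) - L| ≤ (δ + κ) * Real.sqrt L := by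
        have h2 := abs_add_le (mu F q y (sn f q F n) - ll y) (ll y - L)
        rw [show (mu F q y (sn f q F n) - ll y) + (ll y - L) = mu F q y (sn f q F n) - L by
          ring] at h2
        nlinarith
      exact key_ineq hL1 hvp hδ0.le hκ0.le hCB.le rfl hE hE' hmu hg2 (by
        rw [hκC, hδ]; linarith)
    refine le_trans (cnt_mono h1) ?_
    refine le_trans (cnt_or N _ _) ?_
    have h2 := cnt_or N (fun n => ⌊f.eval (n : ℝ)⌋ = 0)
      (fun n => δ * Real.sqrt L <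
          ((q.primeFactors.filter fun p : ℕ => (p : ℤ) ∣ ⌊f.eval (n : ℝ)⌋).card : ℝ))
    have h3 : 5 * δ * N ≤ e * N := by
      rw [hδ]; nlinarith
    linarith
  have hfin := hCOMB N (fun n => sn f q F n) G (fun n => xn f N n) z t e hN1 he0 he1 hh1 hh2
    hh3 hh4
  exact hfin.trans heε

end Pool.Agent.Helper20.EP.H97
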