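import Pool.Agent.Helper97.EP.Cnt
import Pool.Agent.Helper20.EP.Spec2

/-!
# EP, part MEAN: the mean over the primes `≤ y`
-/

set_option autoImplicit false

open Polynomial

namespace Pool.Agent.Helper20.EP.H97

theorem sum_cells {f : ℝ[X]} {N q : ℕ} {F : ℤ[X]} (A : Finset ℤ) :
    ∑ s ∈ A, ((cell f N q F s).card : ℝ) = cnt N (fun n => sn f q F n ∈ A) := by
  classical
  have h1 := Finset.card_eq_sum_card_fiberwise (f := fun n => sn f q F n)
    (s := (Finset.Icc 1 N).filter fun n => sn f q F n ∈ A) (t := A)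
    (fun n hn => (Finset.mem_filter.1 hn).2)
  unfold cnt
  have h2 : ((Finset.Icc 1 N).filter fun n => sn f q F n ∈ A).card =
      ∑ s ∈ A, (cell f N q F s).card := by
    rw [h1]
    apply Finset.sum_congr rfl
    intro s hs
    congr 1
    ext n
    unfold cell
    simp only [Finset.mem_filter]
    constructor
    · rintro ⟨⟨h3, h4⟩, h5⟩
      exact ⟨h3, h5⟩
    · rintro ⟨h3, h5⟩
      exact ⟨⟨h3, by rw [h5]; exact hs⟩, h5⟩
  have h3 : (((Finset.Icc 1 N).filter fun n => sn f q F n ∈ A).card : ℝ) =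
      ∑ s ∈ A, ((cell f N q F s).card : ℝ) := by
    rw [h2]; push_cast; rfl
  rw [← h3]
  congr!

theorem mu_split {F : ℤ[X]} {q : ℕ} {M y : ℝ} (hq : 1 ≤ q) (hqM : (q : ℝ) ≤ M) (hMy : M ≤ y)
    (s : ℤ) : mu F q y s = mu F q M s + RS (F - C s) M y := by
  classical
  unfold mu RS
  have hM0 : 0 ≤ M := le_trans (by positivity) hqM
  have h1 : Pq q y = Pq q M ∪ (primesLE y).filter (fun p : ℕ => M < p) := by
    ext p
    unfold Pq primesLE
    simp only [Finset.mem_union, Finset.mem_filter, Finset.mem_range]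
    constructor
    · rintro ⟨⟨h1, h2⟩, h3⟩
      by_cases h4 : M < p
      · right; exact ⟨⟨h1, h2⟩, h4⟩
      · left
        push Not at h4
        refine ⟨⟨?_, h2⟩, h3⟩
        exact Nat.lt_succ_of_le (Nat.le_floor h4)
    · rintro (⟨⟨h1, h2⟩, h3⟩ | ⟨⟨h1, h2⟩, h4⟩)
      · refine ⟨⟨?_, h2⟩, h3⟩
        have h5 : ⌊M⌋₊ ≤ ⌊y⌋₊ := Nat.floor_le_floor hMy
        omega
      · refine ⟨⟨h1, h2⟩, ?_⟩
        intro h5
        have h6 := Nat.le_of_dvd (by omega) h5
        have h7 : (p : ℝ) ≤ q := by exact_mod_cast h6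
        linarith
  have h2 : Disjoint (Pq q M) ((primesLE y).filter (fun p : ℕ => M < p)) := by
    rw [Finset.disjoint_left]
    intro p hp hp'
    unfold Pq primesLE at hp
    rw [Finset.mem_filter, Finset.mem_filter, Finset.mem_range] at hp
    rw [Finset.mem_filter] at hp'
    have h3 : p ≤ ⌊M⌋₊ := by omega
    have h4 : (p : ℝ) ≤ M := le_trans (by exact_mod_cast h3) (Nat.floor_le hM0)
    linarith [hp'.2]
  rw [h1, Finset.sum_union h2]
  rfl

theorem mean_main (hSMALL : S_SMALL) (hLARGE : S_LARGE) (hPAC : S_PAC) (hINT : S_INT)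
    (hSCALE : S_SCALE) : S_MEAN := by
  classical
  intro f hf ε hε
  set D : ℕ := f.natDegree with hDdef
  have hD0 : (0 : ℝ) < D := by exact_mod_cast hf
  obtain ⟨C0, NS, hC0, hS⟩ := hSCALE f hf
  obtain ⟨c, hc0, hc1, hL⟩ := hLARGE D C0 hf hC0
  obtain ⟨c', MP, hc', hP⟩ := hPAC f hf c hc0 hc1
  set e : ℝ := ε / 2 with he
  have he0 : 0 < e := by positivity
  obtain ⟨η, MI, hη, hI⟩ := hINT f hf (e / (4 * D)) (by positivity)
  obtain ⟨ML, hL⟩ := hL c' e η hc' he0 hη
  obtain ⟨K, MS, N1, hSm⟩ := hSMALL f hf e he0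
  set M₁ : ℝ := max 3 (max MP (max MI (max ML MS))) with hM₁
  set N₀ : ℕ := max 1 (max NS N1) with hN₀
  refine ⟨max 2 K, M₁, N₀, ?_⟩
  intro N q F T M y hN hD hM1 hMN hMy hyN
  have hN1' : 1 ≤ N := le_trans (by rw [hN₀]; simp) hN
  have hNS : NS ≤ N := le_trans (by rw [hN₀]; simp) hN
  have hNN : N1 ≤ N := le_trans (by rw [hN₀]; simp) hN
  have hM_3 : 3 ≤ M := le_trans (by rw [hM₁]; simp) hM1
  have hM_P : MP ≤ M := le_trans (by rw [hM₁]; simp) hM1
  have hM_I : MI ≤ M := le_trans (by rw [hM₁]; simp) hM1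
  have hM_L : ML ≤ M := le_trans (by rw [hM₁]; simp) hM1
  have hM_S : MS ≤ M := le_trans (by rw [hM₁]; simp) hM1
  have hMpow : ∀ k : ℕ, k ≤ max 2 K → M ^ k ≤ N := fun k hk =>
    le_trans (pow_le_pow_right₀ (by linarith) hk) hMN
  have hMsq : M ^ 2 ≤ N := hMpow 2 (le_max_left _ _)
  have hMK : M ^ K ≤ N := hMpow K (le_max_right _ _)
  have hN0 : (0 : ℝ) < N := by exact_mod_cast hN1'
  have hq1 : 1 ≤ q := hD.q_pos
  have hqM : (q : ℝ) ≤ M := by
    rw [hD.hM]
    have h1 := hD.T_nn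
    have h2 : (0 : ℝ) ≤ q := by positivity
    nlinarith
  obtain ⟨⟨R, hR⟩, hsn⟩ := hS N q F T M hNS hD hMsq
  set S : Finset ℤ := Finset.Icc (-⌊C0 * M⌋) ⌊C0 * M⌋ with hSdef
  have hSmem : ∀ s ∈ S, |(s : ℝ)| ≤ C0 * M := by
    intro s hs
    rw [hSdef, Finset.mem_Icc] at hs
    have h1 : (⌊C0 * M⌋ : ℝ) ≤ C0 * M := Int.floor_le _
    have h2 : (s : ℝ) ≤ ⌊C0 * M⌋ := by exact_mod_cast hs.2
    have h3 : (-⌊C0 * M⌋ : ℝ) ≤ s := by exact_mod_cast hs.1
    rw [abs_le]
    constructor <;> linarith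
  have hsnS : ∀ n ∈ Finset.Icc 1 N, sn f q F n ∈ S := by
    intro n hn
    have h1 := hsn n hn
    rw [abs_le] at h1
    rw [hSdef, Finset.mem_Icc]
    constructor
    · rw [neg_le]
      apply Int.le_floor.2
      push_cast
      linarith [h1.1]
    · exact Int.le_floor.2 h1.2
  set m : ℤ → ℝ := fun s => ((cell f N q F s).card : ℝ) / N with hm
  have hsum : ∀ A : Finset ℤ, ∑ s ∈ A, m s = cnt N (fun n => sn f q F n ∈ A) / N := by
    intro A
    rw [hm, ← sum_cells, Finset.sum_div]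
  have hm0 : ∀ s ∈ S, 0 ≤ m s := by
    intro s _
    rw [hm]; positivity
  have hm1 : ∑ s ∈ S, m s ≤ 1 := by
    rw [hsum, div_le_one hN0]
    unfold cnt
    have h1 : ((Finset.Icc 1 N).filter fun n => sn f q F n ∈ S).card ≤ (Finset.Icc 1 N).card :=
      Finset.card_filter_le _ _
    rw [Nat.card_Icc] at h1
    have h2 : (((Finset.Icc 1 N).filter fun n => sn f q F n ∈ S).card : ℝ) ≤ N := by
      exact_mod_cast (by omega : ((Finset.Icc 1 N).filter fun n => sn f q F n ∈ S).card ≤ N)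
    refine le_trans (le_of_eq ?_) h2
    congr!
  have hAC : AC S m M c c' := by
    intro A _ hA
    rw [hsum, div_le_iff₀ hN0]
    have h1 := hP N q F T M hD hM_P hMsq A hA
    linarith
  have hmass : ∀ P : ℤ → Prop, mass S m P = cnt N (fun n => P (sn f q F n)) / N := by
    intro P
    unfold mass
    rw [hsum]
    congr 1
    apply le_antisymm
    · apply cnt_mono
      intro n _ h
      rw [Finset.mem_filter] at h
      exact h.2
    · apply cnt_mono
      intro n hn h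
      rw [Finset.mem_filter]
      exact ⟨hsnS n hn, h⟩
  have hint : ∀ u : ℝ, mass S m (fun s => |(s : ℝ) - u| ≤ η * M) ≤ e / (4 * D) := by
    intro u
    rw [hmass, div_le_iff₀ hN0]
    exact hI N q F T M hD hM_I hMsq u
  have hlarge := hL F M R y S m hR hM_L hMy hSmem hm0 hm1 hAC hint
  rw [hmass, div_le_iff₀ hN0] at hlarge
  have hsmall := hSm N q F T M hNN hD hM_S hMK
  have hlly : ll y ≤ ll N := by
    unfold ll
    have h1 : 0 < Real.log y := Real.log_pos (by linarith)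
    exact Real.log_le_log h1 (Real.log_le_log (by linarith) hyN)
  have hsq : Real.sqrt (ll y) ≤ Real.sqrt (ll N) := Real.sqrt_le_sqrt hlly
  have h1 : ∀ n ∈ Finset.Icc 1 N, ε * Real.sqrt (ll N) < |mu F q y (sn f q F n) - ll y| →
      (e * Real.sqrt (ll y) < |RS (F - C (sn f q F n)) M y - (ll y - ll M)|) ∨
      (e * Real.sqrt (ll N) < |mu F q M (sn f q F n) - ll M|) := by
    intro n _ h
    by_contra hc
    push Not at hc
    obtain ⟨h2, h3⟩ := hc
    rw [mu_split hq1 hqM hMy] at h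
    have h4 := abs_add_le (mu F q M (sn f q F n) - ll M)
      (RS (F - C (sn f q F n)) M y - (ll y - ll M))
    rw [show (mu F q M (sn f q F n) - ll M) + (RS (F - C (sn f q F n)) M y - (ll y - ll M)) =
      mu F q M (sn f q F n) + RS (F - C (sn f q F n)) M y - ll y by ring] at h4
    have h5 : e * Real.sqrt (ll y) ≤ e * Real.sqrt (ll N) := mul_le_mul_of_nonneg_left hsq he0.le
    rw [he] at h2 h3 h5
    linarith
  refine le_trans (cnt_mono h1) ?_
  refine le_trans (cnt_or N _ _) ?_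
  rw [he] at hlarge hsmall
  linarith

end Pool.Agent.Helper20.EP.H97
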