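import Pool.Agent.Helper20.EP.Spec3

/-!
# EP: counting
-/

set_option autoImplicit false

open Polynomial

namespace Pool.Agent.Helper20.EP.H97

theorem cnt_nonneg (N : ℕ) (P : ℕ → Prop) : 0 ≤ cnt N P := by
  unfold cnt; positivity

theorem cnt_mono {N : ℕ} {P Q : ℕ → Prop} (h : ∀ n ∈ Finset.Icc 1 N, P n → Q n) :
    cnt N P ≤ cnt N Q := by
  classical
  unfold cnt
  norm_cast
  apply Finset.card_le_card
  intro n hn
  simp only [Finset.mem_filter] at hn ⊢
  exact ⟨hn.1, h n hn.1 hn.2⟩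

theorem cnt_or (N : ℕ) (P Q : ℕ → Prop) :
    cnt N (fun n => P n ∨ Q n) ≤ cnt N P + cnt N Q := by
  classical
  unfold cnt
  norm_cast
  refine le_trans (Finset.card_le_card ?_) (Finset.card_union_le _ _)
  intro n hn
  simp only [Finset.mem_filter, Finset.mem_union] at hn ⊢
  tauto

/-- small cells contain few numbers -/
theorem cnt_small {f : ℝ[X]} {N q : ℕ} {F : ℤ[X]} {C0 M : ℝ} (hC0 : 1 ≤ C0) (hM : 1 ≤ M)
    (hs : ∀ n ∈ Finset.Icc 1 N, |(sn f q F n : ℝ)| ≤ C0 * M) (a : ℝ) (ha : 0 < a) :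
    cnt N (fun n => ¬ (N : ℝ) ≤ a * (cell f N q F (sn f q F n)).card) ≤ 3 * C0 * M * (N / a) := by
  classical
  set S : Finset ℕ := (Finset.Icc 1 N).filter
    (fun n => ¬ (N : ℝ) ≤ a * (cell f N q F (sn f q F n)).card) with hS
  set I : Finset ℤ := Finset.Icc (-⌊C0 * M⌋) ⌊C0 * M⌋ with hI
  have hCM : 1 ≤ C0 * M := by nlinarith
  have hfl : 0 ≤ ⌊C0 * M⌋ := Int.floor_nonneg.2 (by linarith)
  have hmap : ∀ n ∈ S, sn f q F n ∈ I := by
    intro n hn
    rw [hS, Finset.mem_filter] at hn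
    have h1 := hs n hn.1
    rw [abs_le] at h1
    rw [hI, Finset.mem_Icc]
    constructor
    · rw [neg_le]
      apply Int.le_floor.2
      push_cast
      linarith [h1.1]
    · exact Int.le_floor.2 h1.2
  have hcard : (I.card : ℝ) ≤ 3 * C0 * M := by
    rw [hI, Int.card_Icc]
    have h2 : ((⌊C0 * M⌋ + 1 - -⌊C0 * M⌋).toNat : ℝ) = 2 * ⌊C0 * M⌋ + 1 := by
      have h3 : (((⌊C0 * M⌋ + 1 - -⌊C0 * M⌋).toNat : ℤ) : ℝ) = ((⌊C0 * M⌋ + 1 - -⌊C0 * M⌋ : ℤ) : ℝ) := by
        rw [Int.toNat_of_nonneg (by linarith)]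
      have h4 : ((⌊C0 * M⌋ + 1 - -⌊C0 * M⌋).toNat : ℝ) =
          (((⌊C0 * M⌋ + 1 - -⌊C0 * M⌋).toNat : ℤ) : ℝ) := by norm_cast
      rw [h4, h3]
      push_cast
      ring
    rw [h2]
    have h5 : (⌊C0 * M⌋ : ℝ) ≤ C0 * M := Int.floor_le _
    nlinarith
  have hfib := Finset.card_eq_sum_card_fiberwise (f := fun n => sn f q F n) (s := S) (t := I) hmap
  have hb : ∀ s ∈ I, ((S.filter fun n => sn f q F n = s).card : ℝ) ≤ N / a := by
    intro s _
    by_cases he : (S.filter fun n => sn f q F n = s).Nonempty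
    · obtain ⟨n, hn⟩ := he
      rw [Finset.mem_filter, hS, Finset.mem_filter] at hn
      have h1 := hn.1.2
      rw [hn.2] at h1
      push Not at h1
      have h2 : (S.filter fun n => sn f q F n = s).card ≤ (cell f N q F s).card := by
        apply Finset.card_le_card
        intro m hm
        rw [Finset.mem_filter, hS, Finset.mem_filter] at hm
        unfold cell
        rw [Finset.mem_filter]
        exact ⟨hm.1.1, hm.2⟩
      have h3 : ((S.filter fun n => sn f q F n = s).card : ℝ) ≤ (cell f N q F s).card := by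
        exact_mod_cast h2
      rw [le_div_iff₀ ha]
      nlinarith
    · rw [Finset.not_nonempty_iff_eq_empty] at he
      rw [he]
      simp only [Finset.card_empty, Nat.cast_zero]
      positivity
  have hcnt : cnt N (fun n => ¬ (N : ℝ) ≤ a * (cell f N q F (sn f q F n)).card) = (S.card : ℝ) := by
    unfold cnt
    rw [hS]
    norm_cast
    congr
  rw [hcnt, hfib]
  push_cast
  calc (∑ s ∈ I, ((S.filter fun n => sn f q F n = s).card : ℝ)) ≤ ∑ s ∈ I, (N / a : ℝ) :=
        Finset.sum_le_sum hb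
    _ = I.card * (N / a) := by rw [Finset.sum_const, nsmul_eq_mul]
    _ ≤ 3 * C0 * M * (N / a) := by
        apply mul_le_mul_of_nonneg_right hcard
        positivity

/-- `Zn f 1 y n - Zn f q y n` -/
theorem Zn_sub {f : ℝ[X]} {q : ℕ} (hq : 1 ≤ q) (y : ℝ) (n : ℕ) :
    |((Zn f 1 y n : ℝ) - Zn f q y n)| ≤
      ((q.primeFactors.filter fun p : ℕ => (p : ℤ) ∣ ⌊f.eval (n : ℝ)⌋).card : ℝ) := by
  classical
  have h1 : Zn f q y n ≤ Zn f 1 y n := by
    unfold Zn
    apply Finset.card_le_card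
    intro p hp
    rw [Finset.mem_filter] at hp ⊢
    refine ⟨?_, hp.2⟩
    have h2 := hp.1
    unfold Pq at h2 ⊢
    rw [Finset.mem_filter] at h2 ⊢
    refine ⟨h2.1, ?_⟩
    unfold primesLE at h2
    rw [Finset.mem_filter] at h2
    intro h3
    exact h2.1.2.one_lt.ne' (Nat.dvd_one.1 h3)
  have h2 : Zn f 1 y n ≤ Zn f q y n +
      (q.primeFactors.filter fun p : ℕ => (p : ℤ) ∣ ⌊f.eval (n : ℝ)⌋).card := by
    unfold Zn
    refine le_trans (Finset.card_le_card ?_) (Finset.card_union_le _ _)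
    intro p hp
    rw [Finset.mem_filter] at hp
    unfold Pq at hp ⊢
    rw [Finset.mem_filter] at hp
    rw [Finset.mem_union]
    by_cases hpq : p ∣ q
    · right
      rw [Finset.mem_filter]
      refine ⟨?_, hp.2⟩
      rw [Nat.mem_primeFactors]
      have h3 := hp.1.1
      unfold primesLE at h3
      rw [Finset.mem_filter] at h3
      exact ⟨h3.2, hpq, by omega⟩
    · left
      rw [Finset.mem_filter, Finset.mem_filter]
      exact ⟨⟨hp.1.1, hpq⟩, hp.2⟩
  have h3 : (Zn f q y n : ℝ) ≤ Zn f 1 y n := by exact_mod_cast h1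
  have h4 : (Zn f 1 y n : ℝ) ≤ Zn f q y n +
      ((q.primeFactors.filter fun p : ℕ => (p : ℤ) ∣ ⌊f.eval (n : ℝ)⌋).card : ℝ) := by
    exact_mod_cast h2
  rw [abs_of_nonneg (by linarith)]
  linarith

/-- `log log N → ∞` -/
theorem ll_large (B : ℝ) : ∃ N₀ : ℕ, ∀ N : ℕ, N₀ ≤ N → B ≤ ll N := by
  have h : Filter.Tendsto (fun N : ℕ => ll (N : ℝ)) Filter.atTop Filter.atTop := by
    unfold ll
    exact Real.tendsto_log_atTop.comp (Real.tendsto_log_atTop.comp tendsto_natCast_atTop_atTop)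
  obtain ⟨N₀, h1⟩ := Filter.eventually_atTop.1 (h.eventually_ge_atTop B)
  exact ⟨N₀, h1⟩

/-- the inequality behind the comparison of `x` and `z` -/
theorem key_ineq {L mu va z om Zq E δ κ ε C : ℝ} (hL : 1 ≤ L) (hva : 0 < va)
    (hδ : 0 ≤ δ) (hκ : 0 ≤ κ) (hC : 0 ≤ C)
    (hz : z = (Zq - mu) / Real.sqrt va)
    (hE : |om - Zq| ≤ E) (hE' : E ≤ (C * κ + δ) * Real.sqrt L)
    (hmu : |mu - L| ≤ (δ + κ) * Real.sqrt L)
    (hv : |va - mu| ≤ δ * L)
    (hε : (C + 1) * κ + 2 * δ ≤ ε) :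
    |(om - L) / Real.sqrt L - z| ≤ ε * (1 + |z|) := by
  have hsL : 1 ≤ Real.sqrt L := by
    rw [Real.one_le_sqrt]; exact hL
  have hsL0 : 0 < Real.sqrt L := by linarith
  have hsv : 0 < Real.sqrt va := Real.sqrt_pos.2 hva
  have hZ : Zq = mu + z * Real.sqrt va := by
    rw [hz]; field_simp; ring
  have hLL : Real.sqrt L * Real.sqrt L = L := Real.mul_self_sqrt (by linarith)
  have hvv : Real.sqrt va * Real.sqrt va = va := Real.mul_self_sqrt hva.le
  have e1 : (om - L) / Real.sqrt L - z =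
      ((mu - L) + (om - Zq)) / Real.sqrt L + z * (Real.sqrt va / Real.sqrt L - 1) := by
    rw [hZ]; field_simp; ring
  -- |√va/√L − 1| ≤ |va/L − 1|
  have h2 : |Real.sqrt va / Real.sqrt L - 1| ≤ |va / L - 1| := by
    have h3 : va / L - 1 = (Real.sqrt va / Real.sqrt L - 1) * (Real.sqrt va / Real.sqrt L + 1) := by
      have : va / L = (Real.sqrt va / Real.sqrt L) * (Real.sqrt va / Real.sqrt L) := by
        rw [div_mul_div_comm, hvv, hLL]
      rw [this]; ring
    rw [h3, abs_mul]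
    have h4 : 1 ≤ |Real.sqrt va / Real.sqrt L + 1| := by
      rw [abs_of_nonneg (by positivity)]
      have : 0 ≤ Real.sqrt va / Real.sqrt L := by positivity
      linarith
    nlinarith [abs_nonneg (Real.sqrt va / Real.sqrt L - 1)]
  have h3 : |va / L - 1| ≤ 2 * δ + κ := by
    have h4 : va / L - 1 = (va - L) / L := by field_simp
    rw [h4, abs_div, abs_of_pos (by linarith : (0 : ℝ) < L), div_le_iff₀ (by linarith)]
    have h5 : |va - L| ≤ |va - mu| + |mu - L| := by
      have := abs_add_le (va - mu) (mu - L)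
      simpa using this
    have h6 : Real.sqrt L ≤ L := by nlinarith
    have h7 : (δ + κ) * Real.sqrt L ≤ (δ + κ) * L := mul_le_mul_of_nonneg_left h6 (by linarith)
    nlinarith
  have h4 : |((mu - L) + (om - Zq)) / Real.sqrt L| ≤ (C + 1) * κ + 2 * δ := by
    rw [abs_div, abs_of_pos hsL0, div_le_iff₀ hsL0]
    have h5 := abs_add_le (mu - L) (om - Zq)
    nlinarith
  rw [e1]
  refine le_trans (abs_add_le _ _) ?_
  rw [abs_mul]
  have h5 : |z| * |Real.sqrt va / Real.sqrt L - 1| ≤ |z| * (2 * δ + κ) :=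
    mul_le_mul_of_nonneg_left (h2.trans h3) (abs_nonneg z)
  have h6 : |z| * (2 * δ + κ) ≤ |z| * ε := by
    apply mul_le_mul_of_nonneg_left _ (abs_nonneg z)
    nlinarith
  linarith

end Pool.Agent.Helper20.EP.H97
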